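import Pool.Agent.R803.PellVals2
import Pool.Agent.R154.FT.Fin
import Pool.Agent.R154.FT.Sieve1

/-!
# The classes modulo `l` in which a prime `q ≡ 1 (mod l)` divides `8 d_m ^ 2 + 1`
-/

set_option autoImplicit false
open Finset

namespace Pool.Agent.R154.FW
open Pool.Agent.R803.PV
open Pool.Agent.R154.FT (win mem_win Mod)

/-- `q` divides `N_m` exactly if `w = (3 + 2 s) ^ (2 m)` satisfies `(w + 2) (2 w + 1) = 0` -/
theorem dvd_iff_w (q : ℕ) [Fact q.Prime] (s : ZMod q) (hs : s ^ 2 = 2) (m : ℕ) :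
    q ∣ N m ↔ ((3 + 2 * s) ^ (2 * m) + 2) * (2 * (3 + 2 * s) ^ (2 * m) + 1) = 0 := by
  have h1 := zpow_eq s hs m
  have hp : ((db m).1 : ZMod q) ^ 2 = 8 * ((db m).2 : ZMod q) ^ 2 + 1 := by
    have := pell m
    exact_mod_cast congrArg (Nat.cast : ℕ → ZMod q) this
  have hu : (3 + 2 * s) ≠ 0 := left_ne_zero_of_mul_eq_one
    (show (3 + 2 * s) * (3 - 2 * s) = 1 by linear_combination -4 * hs)
  have hw : (3 + 2 * s) ^ (2 * m) = (((db m).1 : ZMod q) + 2 * s * ((db m).2 : ZMod q)) ^ 2 := by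
    rw [← h1, ← pow_mul, mul_comm 2 m]
  have hw0 : (3 + 2 * s) ^ (2 * m) ≠ 0 := pow_ne_zero _ hu
  have key : ((3 + 2 * s) ^ (2 * m) + 2) * (2 * (3 + 2 * s) ^ (2 * m) + 1) =
      (3 + 2 * s) ^ (2 * m) * (8 * ((db m).1 : ZMod q) ^ 2 + 1) := by
    have hv : (((db m).1 : ZMod q) + 2 * s * ((db m).2 : ZMod q)) * (((db m).1 : ZMod q) - 2 * s * ((db m).2 : ZMod q)) = 1 := by
      linear_combination hp - 4 * ((db m).2 : ZMod q) ^ 2 * hs
    rw [hw]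
    set x := ((db m).1 : ZMod q) + 2 * s * ((db m).2 : ZMod q) with hx
    set y := ((db m).1 : ZMod q) - 2 * s * ((db m).2 : ZMod q) with hy
    have e : 8 * ((db m).1 : ZMod q) ^ 2 = 2 * (x + y) ^ 2 := by rw [hx, hy]; ring
    rw [e]
    linear_combination (-(2 : ZMod q) * (x * y + 1) - 4 * x ^ 2) * hv
  rw [key, ← ZMod.natCast_eq_zero_iff]
  have e2 : ((N m : ℕ) : ZMod q) = 8 * ((db m).1 : ZMod q) ^ 2 + 1 := by
    unfold N
    push_cast
    rfl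
  rw [e2]
  constructor
  · intro h; rw [h, mul_zero]
  · intro h
    exact (mul_eq_zero.1 h).resolve_left hw0

/-- the bad classes modulo `l` -/
noncomputable def bad (r0 Q Z : ℕ) (l : Nat.Primes) : Finset (ZMod (l : ℕ)) := by
  classical
  exact univ.filter (fun x => ∃ q : ℕ, q.Prime ∧ q ≠ 2 ∧ q ≠ 3 ∧ q ≤ Z ∧ (l : ℕ) ∣ q - 1 ∧
    (∃ t : ℕ, ¬ q ∣ N (r0 + Q * t)) ∧ q ∣ N (r0 + Q * x.val))

theorem mem_bad (r0 Q Z : ℕ) (l : Nat.Primes) (x : ZMod (l : ℕ)) : x ∈ bad r0 Q Z l ↔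
    ∃ q : ℕ, q.Prime ∧ q ≠ 2 ∧ q ≠ 3 ∧ q ≤ Z ∧ (l : ℕ) ∣ q - 1 ∧
    (∃ t : ℕ, ¬ q ∣ N (r0 + Q * t)) ∧ q ∣ N (r0 + Q * x.val) := by
  classical
  unfold bad
  rw [mem_filter]
  simp only [mem_univ, true_and]

/-- the structure of `q - 1` -/
theorem sub_one_dvd {K1 Y Z : ℕ} (h : Mod K1 Y Z) {q l : ℕ} (hq : q.Prime) (hqZ : q ≤ Z) (hl : l.Prime)
    (hY : Y < l) (hd : l ∣ q - 1) : q - 1 ∣ l * K1 := by
  obtain ⟨s, hs⟩ := hd
  have hq1 : 1 < q := hq.one_lt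
  have hs0 : 0 < s := by
    rcases Nat.eq_zero_or_pos s with h0 | h0
    · rw [h0, mul_zero] at hs; omega
    · exact h0
  have hsY : s < Y := by
    by_contra hcon
    push Not at hcon
    have h1 : Y * Y ≤ l * s := Nat.mul_le_mul hY.le hcon
    have h2 := h.YZ
    rw [pow_two] at h2
    omega
  have hsZ : s ≤ Z := by
    have : s ≤ l * s := Nat.le_mul_of_pos_left _ hl.pos
    omega
  rw [hs]
  apply Nat.mul_dvd_mul_left
  exact h.smooth s hs0 hsZ (fun p _ hps => (Nat.le_of_dvd hs0 hps).trans hsY.le)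

theorem modEq_of {M a b q : ℕ} (hM : q ∣ M) (h : a ≡ b [MOD M]) : a ≡ b [MOD q] := h.of_dvd hM

/-- at most two classes for each `q` -/
theorem two_classes {K1 Y Z : ℕ} (h : Mod K1 Y Z) (r0 Q : ℕ) (hQ : K1 ∣ Q) (l : Nat.Primes) (hY : Y < (l : ℕ))
    (q : ℕ) (hq : q.Prime) (h2 : q ≠ 2) (h3 : q ≠ 3) (hqZ : q ≤ Z) (hd : (l : ℕ) ∣ q - 1)
    (hact : ∃ t : ℕ, ¬ q ∣ N (r0 + Q * t)) :
    (univ.filter (fun x : ZMod (l : ℕ) => q ∣ N (r0 + Q * x.val))).card ≤ 2 := by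
  classical
  have : Fact q.Prime := ⟨hq⟩
  by_cases hemp : (univ.filter (fun x : ZMod (l : ℕ) => q ∣ N (r0 + Q * x.val))) = ∅
  · rw [hemp]; simp
  obtain ⟨x0, hx0⟩ := Finset.nonempty_iff_ne_empty.2 hemp
  rw [mem_filter] at hx0
  obtain ⟨s, hs⟩ := two_sq q h3 _ hx0.2
  have hu : (3 + 2 * s) ≠ 0 := left_ne_zero_of_mul_eq_one
    (show (3 + 2 * s) * (3 - 2 * s) = 1 by linear_combination -4 * hs)
  set u : ZMod q := 3 + 2 * s with hudef
  set g : ZMod q := u ^ (2 * Q) with hg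
  have hgl : g ^ (l : ℕ) = 1 := by
    have h1 : q - 1 ∣ (2 * Q) * (l : ℕ) := by
      have h2 := sub_one_dvd h hq hqZ l.2 hY hd
      have h3 : (l : ℕ) * K1 ∣ (2 * Q) * (l : ℕ) := by
        rw [mul_comm (2 * Q)]
        exact Nat.mul_dvd_mul_left _ (hQ.trans (dvd_mul_left _ _))
      exact h2.trans h3
    obtain ⟨c, hc⟩ := h1
    rw [hg, ← pow_mul, hc, pow_mul, ZMod.pow_card_sub_one_eq_one hu, one_pow]
  have hg1 : g ≠ 1 := by
    intro hcon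
    obtain ⟨t, ht⟩ := hact
    apply ht
    rw [dvd_iff_w q s hs]
    have h1 := (dvd_iff_w q s hs _).1 hx0.2
    have e : ∀ t : ℕ, u ^ (2 * (r0 + Q * t)) = u ^ (2 * r0) := by
      intro t
      rw [show 2 * (r0 + Q * t) = 2 * r0 + 2 * Q * t by ring, pow_add, pow_mul u (2 * Q) t, ← hg, hcon, one_pow, mul_one]
    rw [e] at h1 ⊢
    exact h1
  have hord : orderOf g = (l : ℕ) := orderOf_eq_prime hgl hg1
  have hinj : Set.InjOn (fun x : ZMod (l : ℕ) => u ^ (2 * (r0 + Q * x.val)))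
      (univ.filter (fun x : ZMod (l : ℕ) => q ∣ N (r0 + Q * x.val)) : Finset (ZMod (l : ℕ))) := by
    intro x _ y _ hxy
    simp only at hxy
    have e : ∀ t : ℕ, u ^ (2 * (r0 + Q * t)) = u ^ (2 * r0) * g ^ t := by
      intro t
      rw [show 2 * (r0 + Q * t) = 2 * r0 + 2 * Q * t by ring, pow_add, pow_mul u (2 * Q) t, ← hg]
    rw [e, e] at hxy
    have h1 := mul_left_cancel₀ (pow_ne_zero _ hu) hxy
    have hg0 : g ≠ 0 := pow_ne_zero _ hu
    have h1' : (Units.mk0 g hg0) ^ x.val = (Units.mk0 g hg0) ^ y.val := by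
      apply Units.ext
      simpa using h1
    have h2 := pow_eq_pow_iff_modEq.1 h1'
    rw [← orderOf_units, Units.val_mk0, hord] at h2
    have : Fact (l : ℕ).Prime := ⟨l.2⟩
    have h3 : x.val = y.val := by
      have hx := ZMod.val_lt x
      have hy := ZMod.val_lt y
      exact Nat.ModEq.eq_of_lt_of_lt h2 hx hy
    exact ZMod.val_injective _ h3
  have hq2 : (2 : ZMod q) ≠ 0 := Pool.Agent.R154.FT.two_ne h2
  calc (univ.filter (fun x : ZMod (l : ℕ) => q ∣ N (r0 + Q * x.val))).card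
      = ((univ.filter (fun x : ZMod (l : ℕ) => q ∣ N (r0 + Q * x.val))).image
          (fun x : ZMod (l : ℕ) => u ^ (2 * (r0 + Q * x.val)))).card := (Finset.card_image_of_injOn hinj).symm
    _ ≤ ({-2, -(2 : ZMod q)⁻¹} : Finset (ZMod q)).card := by
        apply Finset.card_le_card
        intro w hw
        rw [mem_image] at hw
        obtain ⟨x, hx, rfl⟩ := hw
        rw [mem_filter] at hx
        have h1 := (dvd_iff_w q s hs _).1 hx.2
        rw [mem_insert, mem_singleton]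
        rcases mul_eq_zero.1 h1 with h | h
        · left; linear_combination h
        · right
          apply mul_left_cancel₀ hq2
          rw [mul_neg, mul_inv_cancel₀ hq2]
          linear_combination h
    _ ≤ 2 := Finset.card_le_two

theorem bad_card {K1 Y Z : ℕ} (h : Mod K1 Y Z) (r0 Q : ℕ) (hQ : K1 ∣ Q) (l : Nat.Primes) (hY : Y < (l : ℕ)) :
    (bad r0 Q Z l).card * (l : ℕ) ≤ 50 * Z := by
  classical
  set Qs : Finset ℕ := (Icc 1 Z).filter (fun q => q.Prime ∧ (q ≠ 2 ∧ q ≠ 3) ∧ (l : ℕ) ∣ q - 1 ∧ ∃ t : ℕ, ¬ q ∣ N (r0 + Q * t)) with hQs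
  have hsub : bad r0 Q Z l ⊆ Qs.biUnion (fun q => univ.filter (fun x : ZMod (l : ℕ) => q ∣ N (r0 + Q * x.val))) := by
    intro x hx
    rw [mem_bad] at hx
    obtain ⟨q, hq, h2, h3, hqZ, hd, hact, hdv⟩ := hx
    rw [mem_biUnion]
    refine ⟨q, ?_, mem_filter.2 ⟨mem_univ _, hdv⟩⟩
    rw [hQs, mem_filter, mem_Icc]
    exact ⟨⟨hq.pos, hqZ⟩, hq, ⟨h2, h3⟩, hd, hact⟩
  have hc1 : (bad r0 Q Z l).card ≤ Qs.card * 2 := by
    refine (card_le_card hsub).trans (card_biUnion_le_card_mul _ _ 2 ?_)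
    intro q hq
    rw [hQs, mem_filter, mem_Icc] at hq
    exact two_classes h r0 Q hQ l hY q hq.2.1 hq.2.2.1.1 hq.2.2.1.2 hq.1.2 hq.2.2.2.1 hq.2.2.2.2
  have hc2 : Qs.card * (l : ℕ) ≤ Z := by
    have h1 : Qs ⊆ (Icc 1 (Z / (l : ℕ))).image (fun k => (l : ℕ) * k + 1) := by
      intro q hq
      rw [hQs, mem_filter, mem_Icc] at hq
      obtain ⟨k, hk⟩ := hq.2.2.2.1
      have hq1 := hq.2.1.one_lt
      rw [mem_image]
      refine ⟨k, ?_, by omega⟩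
      rw [mem_Icc]
      constructor
      · rcases Nat.eq_zero_or_pos k with h0 | h0
        · rw [h0, mul_zero] at hk; omega
        · exact h0
      · rw [Nat.le_div_iff_mul_le l.2.pos, mul_comm]
        omega
    have h2 : Qs.card ≤ Z / (l : ℕ) := by
      refine (card_le_card h1).trans (card_image_le.trans ?_)
      rw [Nat.card_Icc, Nat.add_sub_cancel]
    calc Qs.card * (l : ℕ) ≤ Z / (l : ℕ) * (l : ℕ) := Nat.mul_le_mul_right _ h2
      _ ≤ Z := Nat.div_mul_le_self _ _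
  calc (bad r0 Q Z l).card * (l : ℕ) ≤ (Qs.card * 2) * (l : ℕ) := Nat.mul_le_mul_right _ hc1
    _ = 2 * (Qs.card * (l : ℕ)) := by ring
    _ ≤ 2 * Z := Nat.mul_le_mul_left _ hc2
    _ ≤ 50 * Z := by omega

/-- **the good `t`**: a small prime factor of `N_(r0 + Q t)` divides all these numbers, or `q - 1 ∣ K1` -/
theorem good {K1 Y Z : ℕ} (h : Mod K1 Y Z) (r0 Q : ℕ) (hQ : K1 ∣ Q) (t : ℕ)
    (ht : ∀ l ∈ win Y Z, (t : ZMod ((l : Nat.Primes) : ℕ)) ∉ bad r0 Q Z l) (q : ℕ) (hq : q.Prime) (h2 : q ≠ 2)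
    (h3 : q ≠ 3) (hqZ : q ≤ Z) (hdv : q ∣ N (r0 + Q * t)) :
    q - 1 ∣ K1 ∨ ∃ l : ℕ, l.Prime ∧ Y < l ∧ l ∣ q - 1 ∧ ∀ t' : ℕ, q ∣ N (r0 + Q * t') := by
  by_cases hsm : ∀ p : ℕ, p.Prime → p ∣ q - 1 → p ≤ Y
  · left
    have hq1 := hq.one_lt
    exact h.smooth (q - 1) (by omega) (by omega) hsm
  · right
    push Not at hsm
    obtain ⟨l, hl, hd, hY⟩ := hsm
    refine ⟨l, hl, hY, hd, ?_⟩
    have hq1 := hq.one_lt
    have hlZ : l ≤ Z := by
      have := Nat.le_of_dvd (by omega) hd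
      omega
    have hlw : (⟨l, hl⟩ : Nat.Primes) ∈ win Y Z := (mem_win Y Z ⟨l, hl⟩).2 ⟨hY, hlZ⟩
    have h4 := ht ⟨l, hl⟩ hlw
    by_contra hcon
    push Not at hcon
    apply h4
    refine (mem_bad r0 Q Z ⟨l, hl⟩ _).2 ⟨q, hq, h2, h3, hqZ, hd, hcon, ?_⟩
    apply dvd_congr q hq h2 h3 (r0 + Q * t) _ _ hdv
    have h5 := sub_one_dvd h hq hqZ hl hY hd
    rw [ZMod.val_natCast]
    have h6 : Q * t ≡ Q * (t % l) [MOD Q * l] := by
      exact Nat.ModEq.mul_left' Q (Nat.mod_modEq t l).symm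
    have h7 : q - 1 ∣ Q * l := by
      rw [mul_comm]
      exact h5.trans (Nat.mul_dvd_mul_left _ hQ)
    exact (h6.of_dvd h7).add_left r0

end Pool.Agent.R154.FW
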