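import Pool.Agent.R154.FW.Sieve
import Pool.Agent.R154.FW.Pell
import Pool.Agent.R154.FT.Main3

/-!
# Counting the good integers
-/

set_option autoImplicit false
open Finset

namespace Pool.Agent.R154.FW
open Pool.Agent.R803.PV
open Pool.Agent.R154.FT (win mem_win Mod facts3 mod_inst lcm_exp large large_log)

theorem count (ε : ℝ) (hε : 0 < ε) (hε1 : ε < 1) : ∃ κ : ℝ, 0 < κ ∧ ∀ C0 : ℝ, 1 ≤ C0 →
    ∃ X1 : ℕ, ∀ X : ℕ, X1 ≤ X → ∃ Y Z K1 : ℕ, Mod K1 Y Z ∧ κ * (Real.log X) ^ 2 < (Z : ℝ) + 1 ∧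
      (K1 : ℝ) ≤ (X : ℝ) ^ (ε / 4) ∧
      ∀ r0 Q : ℕ, 0 < Q → K1 ∣ Q → (Q : ℝ) ≤ C0 * (X : ℝ) ^ (ε / 4) → (r0 : ℝ) ≤ C0 * (X : ℝ) ^ (ε / 4) →
        ∀ S : ℕ → Prop, (∀ t : ℕ, (∀ l ∈ win Y Z, (t : ZMod ((l : Nat.Primes) : ℕ)) ∉ bad r0 Q Z l) → S (r0 + Q * t)) →
        (X : ℝ) ^ (1 - ε) ≤ (Nat.card {m : ℕ // 1 ≤ m ∧ m ≤ X ∧ S m} : ℝ) := by
  classical
  obtain ⟨Y1, hY1⟩ := facts3
  set κ0 : ℝ := ε / 72 with hκ0
  have hκ00 : 0 < κ0 := by positivity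
  refine ⟨(κ0 / 2) ^ 2 / 200000, by positivity, fun C0 hC0 => ?_⟩
  obtain ⟨n1, hn1⟩ := large (5 * C0) (ε / 4) (by positivity)
  obtain ⟨n2, hn2⟩ := large_log κ0 hκ00 ((Y1 + 2 : ℕ) : ℝ)
  refine ⟨n1 + n2 + 1, fun X hX => ?_⟩
  have hXr : (1 : ℝ) ≤ X := by exact_mod_cast (by omega : 1 ≤ X)
  have hXp : (0 : ℝ) < X := by linarith
  have hlog0 : 0 ≤ Real.log X := Real.log_nonneg hXr
  obtain ⟨Y, hY⟩ : ∃ Y : ℕ, Y = ⌊κ0 * Real.log X⌋₊ := ⟨_, rfl⟩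
  have hYM : Y1 + 2 ≤ Y := by
    rw [hY]
    exact Nat.le_floor (hn2 X (by omega))
  have hYle : (Y : ℝ) ≤ κ0 * Real.log X := by
    rw [hY]
    exact Nat.floor_le (by positivity)
  have hYlt : κ0 * Real.log X < Y + 1 := by
    rw [hY]
    exact Nat.lt_floor_add_one _
  have hY1r : (1 : ℝ) ≤ Y := by exact_mod_cast (by omega : 1 ≤ Y)
  have hYhalf : κ0 / 2 * Real.log X ≤ Y := by linarith
  obtain ⟨hY12, hfacts⟩ := hY1 Y (by omega)
  obtain ⟨Z, hZ⟩ : ∃ Z : ℕ, Z = Y ^ 2 / 200000 := ⟨_, rfl⟩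
  obtain ⟨hZ1, hZ200, hZlt, hZexp, E0, r, hE0, hE1, hr, hrE, hV⟩ := hfacts Z hZ
  have hM : Mod ((Nat.lcmUpto Y) ^ 3) Y Z := mod_inst Y Z (by omega) (by omega)
  set A := (X : ℝ) ^ (ε / 4) with hA
  set B := (X : ℝ) ^ (1 - ε) with hB
  have hexp18 : Real.exp (18 * Y) ≤ A := by
    rw [hA, Real.rpow_def_of_pos hXp]
    apply Real.exp_le_exp.2
    have h1 : 18 * (κ0 * Real.log X) = Real.log X * (ε / 4) := by
      rw [hκ0]
      ring
    linarith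
  have hexpY : Real.exp Y ≤ A := by
    refine le_trans ?_ hexp18
    apply Real.exp_le_exp.2
    linarith
  refine ⟨Y, Z, (Nat.lcmUpto Y) ^ 3, hM, ?_, (lcm_exp Y).trans hexp18, ?_⟩
  · have h3 : (Y : ℝ) ^ 2 < 200000 * ((Z : ℝ) + 1) := by exact_mod_cast hZlt
    calc (κ0 / 2) ^ 2 / 200000 * (Real.log X) ^ 2 = (κ0 / 2 * Real.log X) ^ 2 / 200000 := by ring
      _ ≤ (Y : ℝ) ^ 2 / 200000 := by gcongr
      _ < (Z : ℝ) + 1 := by
          rw [div_lt_iff₀ (by norm_num)]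
          linarith
  intro r0 Q hQ hKQ hQA hrA S hS
  have hbig : 5 * C0 ≤ A := hn1 X (by omega)
  have hA5 : 5 ≤ A := by linarith
  have hB1 : 1 ≤ B := Real.one_le_rpow hXr (by linarith)
  have hAB : A ^ 4 * B = X := by
    rw [hA, hB, ← Real.rpow_natCast, ← Real.rpow_mul hXp.le, ← Real.rpow_add hXp]
    rw [show ε / 4 * ((4 : ℕ) : ℝ) + (1 - ε) = 1 by push_cast; ring, Real.rpow_one]
  have hA2 : A ^ 2 ≤ X := by
    rw [← hAB]
    calc A ^ 2 ≤ A ^ 4 := pow_le_pow_right₀ (by linarith) (by norm_num)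
      _ ≤ A ^ 4 * B := le_mul_of_one_le_right (by positivity) hB1
  have hrX : r0 ≤ X := by
    have h1 : (r0 : ℝ) ≤ X := by
      calc (r0 : ℝ) ≤ C0 * A := hrA
        _ ≤ A * A := by
            apply mul_le_mul_of_nonneg_right (by linarith) (by linarith)
        _ = A ^ 2 := by ring
        _ ≤ X := hA2
    exact_mod_cast h1
  set T : ℕ := (X - r0) / Q with hT
  have hT1 : Q * T ≤ X - r0 := Nat.mul_div_le _ _
  have hT2 : X - r0 < Q * (T + 1) := by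
    rw [hT, Nat.mul_add, mul_one]
    have := Nat.div_add_mod (X - r0) Q
    have := Nat.mod_lt (X - r0) hQ
    omega
  have hT3 : (X : ℝ) - r0 < Q * (T + 1) := by
    have : ((X - r0 : ℕ) : ℝ) < ((Q * (T + 1) : ℕ) : ℝ) := by exact_mod_cast hT2
    rw [Nat.cast_sub hrX] at this
    push_cast at this
    exact this
  have hsv := sieve_exp Y Z r T E0 hY12 hZ1 hZ200 hE1 hr hrE hV (fun l => bad r0 Q Z l)
    (fun l hl => bad_card hM r0 Q hKQ l ((mem_win Y Z l).1 hl).1)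
  set G : Finset ℕ := (Icc 1 T).filter (fun t : ℕ => ∀ l ∈ win Y Z, (t : ZMod ((l : Nat.Primes) : ℕ)) ∉ bad r0 Q Z l) with hG
  have hGc : B ≤ (G.card : ℝ) := by
    refine le_trans ?_ hsv
    have hT0 : (0 : ℝ) ≤ T := Nat.cast_nonneg _
    have h1 : (T : ℝ) * (1 / A) ≤ (T : ℝ) * (1 / Real.exp Y) := by
      apply mul_le_mul_of_nonneg_left _ hT0
      exact one_div_le_one_div_of_le (Real.exp_pos _) hexpY
    have hA0 : 0 < A := by linarith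
    have hC00 : 0 < C0 := by linarith
    -- `X ≤ C0 A (T + 2)`
    have h2 : (X : ℝ) ≤ C0 * A * (T + 2) := by
      have h3 : (Q : ℝ) * (T + 1) ≤ (C0 * A) * (T + 1) := by gcongr
      have e3 : C0 * A * ((T : ℝ) + 2) = (C0 * A) * (T + 1) + C0 * A := by ring
      rw [e3]
      linarith
    have h4 : 5 * A ^ 2 * B ≤ (T : ℝ) + 2 := by
      rw [← hAB] at h2
      have h5 : (C0 * A) * (5 * A ^ 2 * B) ≤ (C0 * A) * ((T : ℝ) + 2) := by
        calc (C0 * A) * (5 * A ^ 2 * B) = (5 * C0) * (A ^ 3 * B) := by ring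
          _ ≤ A * (A ^ 3 * B) := by gcongr
          _ = A ^ 4 * B := by ring
          _ ≤ _ := h2
      exact le_of_mul_le_mul_left h5 (by positivity)
    have h6 : 5 * A * B - 2 ≤ (T : ℝ) * (1 / A) := by
      rw [mul_one_div, le_div_iff₀ hA0]
      have e6 : (5 * A * B - 2) * A = 5 * A ^ 2 * B - 2 * A := by ring
      rw [e6]
      linarith
    have h7 : A ≤ A * B := le_mul_of_one_le_right hA0.le hB1
    have h8 : B ≤ A * B := le_mul_of_one_le_left (by linarith) (by linarith)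
    have h9 : 5 * A * B = 5 * (A * B) := by ring
    linarith
  refine hGc.trans ?_
  have hfin : Finite {m : ℕ // 1 ≤ m ∧ m ≤ X ∧ S m} := by
    apply Set.Finite.to_subtype
    exact (Set.finite_Iic X).subset fun m hm => hm.2.1
  have hmem : ∀ t : G, 1 ≤ t.1 ∧ t.1 ≤ T ∧ S (r0 + Q * t.1) := by
    rintro ⟨t, ht⟩
    have h1 := mem_filter.1 ht
    have h2 := mem_Icc.1 h1.1
    exact ⟨h2.1, h2.2, hS t h1.2⟩
  have hinj : Nat.card G ≤ Nat.card {m : ℕ // 1 ≤ m ∧ m ≤ X ∧ S m} := by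
    refine Nat.card_le_card_of_injective (fun t : G => ⟨r0 + Q * t.1, ?_, ?_, (hmem t).2.2⟩) ?_
    · have h1 : 1 * 1 ≤ Q * t.1 := Nat.mul_le_mul hQ (hmem t).1
      omega
    · have h1 : Q * t.1 ≤ Q * T := Nat.mul_le_mul_left _ (hmem t).2.1
      omega
    · intro i i' hii
      simp only [Subtype.mk.injEq] at hii
      have h1 : Q * i.1 = Q * i'.1 := by omega
      exact Subtype.ext (Nat.eq_of_mul_eq_mul_left hQ h1)
  rw [Nat.card_eq_fintype_card, Fintype.card_coe] at hinj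
  exact_mod_cast hinj

end Pool.Agent.R154.FW
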