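import Pool.Agent.R154.FW.Count

/-!
# Many values `8 d_m ^ 2 + 1` without prime factors up to `c (log X) ^ 2`
-/

set_option autoImplicit false
open Finset

namespace Pool.Agent.R154.FW
open Pool.Agent.R803.PV
open Pool.Agent.R154.FT (win mem_win Mod)

theorem partA (ε : ℝ) (hε : 0 < ε) (hε1 : ε < 1) : ∃ c : ℝ, 0 < c ∧ ∀ m0 L : ℕ, 0 < L →
    ∃ X0 : ℕ, ∀ X : ℕ, X0 ≤ X →
      (X : ℝ) ^ (1 - ε) ≤ (Nat.card {m : ℕ // 1 ≤ m ∧ m ≤ X ∧ m ≡ m0 [MOD L] ∧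
        ∃ R : ℕ, N m = N m0 * R ∧ ∀ q : ℕ, q.Prime → q ∣ R → c * (Real.log X) ^ 2 < q} : ℝ) := by
  obtain ⟨c, hc, hcount⟩ := count ε hε hε1
  refine ⟨c, hc, fun m0 L hL => ?_⟩
  have hN0 : 0 < N m0 := by unfold N; omega
  obtain ⟨P, hP, hper⟩ := period (N m0 ^ 2) (by positivity)
  obtain ⟨X1, hcount⟩ := hcount ((m0 : ℝ) + 2 * L * P + 1) (by
    have : (0 : ℝ) ≤ (m0 : ℝ) + 2 * L * P := by positivity
    linarith)
  refine ⟨X1 + 1, fun X hX => ?_⟩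
  obtain ⟨Y, Z, K, hM, hcZ, hKX, hcnt⟩ := hcount X (by omega)
  have hK0 : 0 < K := hM.pos
  have hX1 : (1 : ℝ) ≤ X := by exact_mod_cast (by omega : 1 ≤ X)
  have hA1 : (1 : ℝ) ≤ (X : ℝ) ^ (ε / 4) := Real.one_le_rpow hX1 (by positivity)
  have hm0 : (0 : ℝ) ≤ (m0 : ℝ) := Nat.cast_nonneg _
  have hLP : (0 : ℝ) ≤ 2 * (L : ℝ) * P := by positivity
  refine hcnt m0 (2 * L * P * K) (by positivity) (Dvd.intro_left _ rfl) ?_ ?_ _ ?_
  · push_cast
    calc 2 * (L : ℝ) * P * K ≤ 2 * (L : ℝ) * P * (X : ℝ) ^ (ε / 4) := by gcongr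
      _ ≤ ((m0 : ℝ) + 2 * L * P + 1) * (X : ℝ) ^ (ε / 4) := by
        gcongr
        linarith
  · calc (m0 : ℝ) ≤ ((m0 : ℝ) + 2 * L * P + 1) * 1 := by linarith
      _ ≤ ((m0 : ℝ) + 2 * L * P + 1) * (X : ℝ) ^ (ε / 4) := by gcongr
  · intro i hi
    have hmodn : ∀ n : ℕ, n ∣ 2 * L * P * K → m0 + 2 * L * P * K * i ≡ m0 [MOD n] := by
      intro n hn
      have : m0 + 2 * L * P * K * i ≡ m0 + 0 [MOD n] :=
        Nat.ModEq.add_left _ ((Nat.modEq_zero_iff_dvd).2 (hn.mul_right _))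
      simpa using this
    refine ⟨hmodn L ⟨2 * P * K, by ring⟩, ?_⟩
    have h1 := hper _ _ (hmodn P ⟨2 * L * K, by ring⟩)
    have h2 : N m0 ∣ N (m0 + 2 * L * P * K * i) := by
      have h3 : N (m0 + 2 * L * P * K * i) ≡ N m0 [MOD N m0] := h1.of_dvd ⟨N m0, by ring⟩
      exact (Nat.modEq_zero_iff_dvd).1 (h3.trans ((Nat.modEq_zero_iff_dvd).2 dvd_rfl))
    obtain ⟨R, hR⟩ := h2
    refine ⟨R, hR, fun q hq hqR => ?_⟩
    have hR1 : R ≡ 1 [MOD N m0] := by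
      rw [hR, show N m0 ^ 2 = N m0 * N m0 by ring] at h1
      have h4 : N m0 * R ≡ N m0 * 1 [MOD N m0 * N m0] := by simpa using h1
      exact Nat.ModEq.mul_left_cancel' hN0.ne' h4
    have hqN0 : ¬ q ∣ N m0 := by
      intro h
      have h5 : R ≡ 1 [MOD q] := hR1.of_dvd h
      have h6 : q ∣ 1 := (Nat.modEq_zero_iff_dvd).1
        (h5.symm.trans ((Nat.modEq_zero_iff_dvd).2 hqR))
      exact hq.one_lt.ne' (Nat.dvd_one.1 h6)
    have hqN : q ∣ N (m0 + 2 * L * P * K * i) := by rw [hR]; exact hqR.mul_left _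
    by_contra hcon
    push Not at hcon
    have hqZ : q ≤ Z := by
      have h5 : (q : ℝ) < (Z : ℝ) + 1 := lt_of_le_of_lt hcon hcZ
      have h6 : q < Z + 1 := by exact_mod_cast h5
      omega
    apply hqN0
    by_cases hq2 : q = 2
    · exact absurd (hq2 ▸ hqN) (N_odd _)
    by_cases hq3 : q = 3
    · subst hq3
      exact three_congr _ _ (hmodn 2 ⟨L * P * K, by ring⟩) hqN
    · rcases good hM m0 (2 * L * P * K) (Dvd.intro_left _ rfl) i hi q hq hq2 hq3 hqZ hqN with h | ⟨l, -, -, -, h⟩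
      · exact dvd_congr q hq hq2 hq3 _ _ (hmodn (q - 1) (h.mul_left _)) hqN
      · have h5 := h 0
        rwa [mul_zero, add_zero] at h5

theorem partB (ε : ℝ) (hε : 0 < ε) (hε1 : ε < 1) : ∃ c : ℝ, 0 < c ∧
    ∃ X0 : ℕ, ∀ X : ℕ, X0 ≤ X →
      (X : ℝ) ^ (1 - ε) ≤ (Nat.card {m : ℕ // 1 ≤ m ∧ m ≤ X ∧ Odd m ∧
        ∀ q : ℕ, q.Prime → q ∣ N m → c * (Real.log X) ^ 2 < q ∨
          ∃ j : ℕ, q ∣ 2 ^ (2 ^ j) + 1 ∧ 2 ^ (j + 3) ∣ q - 1} : ℝ) := by
  obtain ⟨c, hc, hcount⟩ := count ε hε hε1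
  obtain ⟨X1, hcount⟩ := hcount 2 (by norm_num)
  refine ⟨c, hc, X1 + 1, fun X hX => ?_⟩
  obtain ⟨Y, Z, K, hM', hcZ, hKX, hcnt⟩ := hcount X (by omega)
  have hK0 : 0 < K := hM'.pos
  obtain ⟨a, M, hM, hKM⟩ := Nat.exists_eq_two_pow_mul_odd hK0.ne'
  have hM0 : 0 < M := hM.pos
  have hMK : M ≤ K := by
    rw [hKM]
    exact Nat.le_mul_of_pos_left _ (by positivity)
  have hMK' : (M : ℝ) ≤ K := by exact_mod_cast hMK
  have hMdK : M ∣ K := by rw [hKM]; exact dvd_mul_left _ _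
  have hA0 : (0 : ℝ) ≤ (X : ℝ) ^ (ε / 4) := by positivity
  refine hcnt M (2 * K) (by positivity) (Dvd.intro_left _ rfl) ?_ ?_ _ ?_
  · push_cast
    linarith
  · linarith
  · intro i hi
    have hodd : Odd (M + 2 * K * i) := by
      rw [mul_assoc]
      exact hM.add_even (even_two_mul _)
    refine ⟨hodd, fun q hq hqN => ?_⟩
    by_contra hcon
    push Not at hcon
    obtain ⟨hqW, hj⟩ := hcon
    have hqZ : q ≤ Z := by
      have h5 : (q : ℝ) < (Z : ℝ) + 1 := lt_of_le_of_lt hqW hcZ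
      have h6 : q < Z + 1 := by exact_mod_cast h5
      omega
    have hq2 : q ≠ 2 := by
      rintro rfl
      exact N_odd _ hqN
    have hq3 : q ≠ 3 := by
      rintro rfl
      exact not_three _ hodd hqN
    rcases good hM' M (2 * K) (Dvd.intro_left _ rfl) i hi q hq hq2 hq3 hqZ hqN with hK | ⟨l, hl, hlY, hlq, hall⟩
    · obtain ⟨j, hj1, hj2⟩ := fermat_of_dvd q hq hq2 hq3 _ (fun h hho hhq => by
        have h1 : h ∣ 2 ^ a * M := hKM ▸ hhq.trans hK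
        have h2 : h ∣ M := Nat.Coprime.dvd_of_dvd_mul_left
          ((Nat.Coprime.pow_right a ((Nat.coprime_two_right).2 hho))) h1
        exact Nat.dvd_add h2 (((h2.trans hMdK).mul_left 2).mul_right i)) hqN
      exact hj j hj1 hj2
    · have hl2 : 2 < l := lt_of_le_of_lt hM'.Y2 hlY
      have hlK : ¬ l ∣ 2 * K := by
        intro h
        rcases (Nat.Prime.dvd_mul hl).1 h with h | h
        · have := Nat.le_of_dvd (by norm_num) h
          omega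
        · exact hM'.nd l hl hlY h
      have : Fact l.Prime := ⟨hl⟩
      obtain ⟨t', ht'⟩ : ∃ t' : ℕ, l ∣ M + 2 * K * t' := by
        have h0 : ((2 * K : ℕ) : ZMod l) ≠ 0 := by
          rw [Ne, ZMod.natCast_eq_zero_iff]
          exact hlK
        refine ⟨(-(M : ZMod l) / ((2 * K : ℕ) : ZMod l)).val, ?_⟩
        have e0 : ((2 * K : ℕ) : ZMod l) * (-(M : ZMod l) / ((2 * K : ℕ) : ZMod l)) = -(M : ZMod l) := by
          rw [mul_div_assoc', mul_comm, mul_div_assoc, div_self h0, mul_one]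
        rw [← ZMod.natCast_eq_zero_iff, Nat.cast_add, Nat.cast_mul (2 * K), ZMod.natCast_zmod_val, e0, add_neg_cancel]
      obtain ⟨j, hj1, hj2⟩ := fermat_of_dvd q hq hq2 hq3 (M + 2 * K * t') (fun h hho hhq => by
        have h1 : h ∣ l * (2 ^ a * M) := hKM ▸ hhq.trans (sub_one_dvd hM' hq hqZ hl hlY hlq)
        rw [show l * (2 ^ a * M) = 2 ^ a * (l * M) by ring] at h1
        have h2 : h ∣ l * M := Nat.Coprime.dvd_of_dvd_mul_left
          ((Nat.Coprime.pow_right a ((Nat.coprime_two_right).2 hho))) h1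
        refine h2.trans (Nat.Coprime.mul_dvd_of_dvd_of_dvd ?_ ht' ?_)
        · rw [Nat.Prime.coprime_iff_not_dvd hl]
          intro h3
          exact hM'.nd l hl hlY (h3.trans hMdK)
        · exact Nat.dvd_add dvd_rfl ((hMdK.mul_left 2).mul_right t')) (hall t')
      exact hj j hj1 hj2

end Pool.Agent.R154.FW
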