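import Pool.Agent.R154.FT.Sel2
import Pool.Agent.R154.FT.Num3

/-!
# A sieve for integers in an interval, with up to `2 Z / l` classes modulo the primes `l` in a window
-/

set_option autoImplicit false
open Finset

namespace Pool.Agent.R154.FW
open Pool.Agent.R154.FT

theorem sieve1d (Y Z r T : ℕ) (E0 : ℝ) (hY : 12 ≤ Y) (hYZ : 200 * Z ≤ Y ^ 2)
    (hE0' : 100 * (Z : ℝ) * ∑ l ∈ win Y Z, (((l : ℕ) : ℝ) ^ 2)⁻¹ ≤ E0) (hr : Odd r)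
    (hrE : 5 * E0 + 1 ≤ ((r + 1 : ℕ) : ℝ))
    (B : ∀ l : Nat.Primes, Finset (ZMod (l : ℕ))) (hB : ∀ l ∈ win Y Z, (B l).card * (l : ℕ) ≤ 50 * Z) :
    (T : ℝ) * (1 / 2 * Real.exp (-(2 * E0))) -
      (((r + 1) * (Z + 1) ^ r : ℕ) : ℝ) * ((50 * (Z : ℝ) + 1) ^ r * 2) ≤
      (((Icc 1 T).filter (fun t : ℕ => ∀ l ∈ win Y Z, (t : ZMod ((l : Nat.Primes) : ℕ)) ∉ B l)).card : ℝ) := by
  classical
  have hBM : ∀ l ∈ win Y Z, ((B l).card : ℝ) ≤ 50 * (Z : ℝ) + 1 := by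
    intro l hl
    have h1 := hB l hl
    have h2 : (B l).card ≤ (B l).card * (l : ℕ) := Nat.le_mul_of_pos_right _ l.2.pos
    have h3 : (B l).card ≤ 50 * Z + 1 := by omega
    exact_mod_cast h3
  have hbon := bonf (Icc 1 T) (fun (l : Nat.Primes) (j : ℕ) => (j : ZMod (l : ℕ))) (win Y Z) B (fun l => univ)
    (fun l => Finset.subset_univ _) (fun l => Finset.univ_nonempty) r hr 2 (50 * (Z : ℝ) + 1) (by norm_num)
    (by have : (0 : ℝ) ≤ Z := Nat.cast_nonneg _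
        linarith)
    hBM (fun T' _ _ c _ c' _ => by
      have a1 := abs_le.1 (cls_nat T T' c)
      have a2 := abs_le.1 (cls_nat T T' c')
      rw [abs_le]
      constructor <;> linarith [a1.1, a1.2, a2.1, a2.2])
  set β : Nat.Primes → ℝ := fun l => ((B l).card : ℝ) / (univ : Finset (ZMod (l : ℕ))).card with hβ
  have hβ0 : ∀ l, 0 ≤ β l := fun l => by positivity
  have hβ1 : ∀ l ∈ win Y Z, β l ≤ 100 * Z * (((l : ℕ) : ℝ) ^ 2)⁻¹ := by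
    intro l hl
    have h1 : ((B l).card : ℝ) * ((l : ℕ) : ℝ) ≤ 50 * Z := by exact_mod_cast hB l hl
    have hl0 : (0 : ℝ) < (l : ℕ) := by exact_mod_cast l.2.pos
    have hZ0 : (0 : ℝ) ≤ Z := Nat.cast_nonneg _
    simp only [hβ]
    rw [Finset.card_univ, ZMod.card, div_le_iff₀ hl0]
    calc ((B l).card : ℝ) = (((B l).card : ℝ) * ((l : ℕ) : ℝ)) * (((l : ℕ) : ℝ))⁻¹ := by field_simp
      _ ≤ (50 * Z) * (((l : ℕ) : ℝ))⁻¹ := by gcongr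
      _ ≤ (100 * Z) * (((l : ℕ) : ℝ))⁻¹ := by
          have : (50 : ℝ) * Z ≤ 100 * Z := by linarith
          gcongr
      _ = _ := by field_simp
  have hYr : (12 : ℝ) ≤ Y := by exact_mod_cast hY
  have hβ2 : ∀ l ∈ win Y Z, β l ≤ 1 / 2 := by
    intro l hl'
    refine (hβ1 l hl').trans ?_
    have h1 := ((mem_win Y Z l).1 hl').1
    have h2 : (200 : ℝ) * Z ≤ (Y : ℝ) ^ 2 := by exact_mod_cast hYZ
    have h3 : (Y : ℝ) ≤ (l : ℕ) := by exact_mod_cast h1.le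
    have h4 : (Y : ℝ) ^ 2 ≤ ((l : ℕ) : ℝ) ^ 2 := by gcongr
    have hl0 : (0 : ℝ) < (l : ℕ) := by exact_mod_cast l.2.pos
    rw [mul_inv_le_iff₀ (by positivity)]
    linarith
  have hsum : ∑ l ∈ win Y Z, β l ≤ E0 := by
    calc ∑ l ∈ win Y Z, β l ≤ ∑ l ∈ win Y Z, 100 * Z * (((l : ℕ) : ℝ) ^ 2)⁻¹ := Finset.sum_le_sum hβ1
      _ = 100 * Z * ∑ l ∈ win Y Z, (((l : ℕ) : ℝ) ^ 2)⁻¹ := by rw [← Finset.mul_sum]
      _ ≤ E0 := hE0'
  set E : ℝ := ∑ l ∈ win Y Z, β l with hE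
  have hE0 : 0 ≤ E := Finset.sum_nonneg fun l _ => hβ0 l
  have hprod : Real.exp (-(2 * E)) ≤ ∏ l ∈ win Y Z, (1 - β l) := by
    calc Real.exp (-(2 * E)) = ∏ l ∈ win Y Z, Real.exp (-(2 * β l)) := by
          rw [← Real.exp_sum]
          congr 1
          rw [hE, Finset.mul_sum, Finset.sum_neg_distrib]
      _ ≤ _ := by
          apply Finset.prod_le_prod
          · intro l _
            positivity
          · intro l hl'
            exact exp_le_one_sub _ (hβ0 l) (hβ2 l hl')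
  have htail := tail_bound E hE0 (r + 1) (by linarith)
  have hmain : 1 / 2 * Real.exp (-(2 * E0)) ≤ ∏ l ∈ win Y Z, (1 - β l) - E ^ (r + 1) / (r + 1).factorial := by
    have h1 : Real.exp (-(2 * E0)) ≤ Real.exp (-(2 * E)) := by
      apply Real.exp_le_exp.2
      linarith
    linarith
  refine le_trans ?_ hbon
  have h1 : (((win Y Z).powerset.filter (fun T => T.card ≤ r)).card : ℝ) ≤ (((r + 1) * (Z + 1) ^ r : ℕ) : ℝ) := by
    exact_mod_cast card_small (win Y Z) Z r (card_win Y Z)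
  have hT : ((Icc 1 T).card : ℝ) = T := by rw [Nat.card_Icc, Nat.add_sub_cancel]
  rw [hT]
  have h2 : (T : ℝ) * (1 / 2 * Real.exp (-(2 * E0))) ≤
      (T : ℝ) * (∏ l ∈ win Y Z, (1 - β l) - E ^ (r + 1) / (r + 1).factorial) := by
    gcongr
  have h3 : (((win Y Z).powerset.filter (fun T => T.card ≤ r)).card : ℝ) * ((50 * (Z : ℝ) + 1) ^ r * 2) ≤
      (((r + 1) * (Z + 1) ^ r : ℕ) : ℝ) * ((50 * (Z : ℝ) + 1) ^ r * 2) := by
    gcongr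
  linarith

/-- the same with simple bounds -/
theorem sieve_exp (Y Z r T : ℕ) (E0 : ℝ) (hY : 12 ≤ Y) (hZ : 1 ≤ Z) (hYZ : 200 * Z ≤ Y ^ 2)
    (hE0' : 100 * (Z : ℝ) * ∑ l ∈ win Y Z, (((l : ℕ) : ℝ) ^ 2)⁻¹ ≤ E0) (hr : Odd r)
    (hrE : 5 * E0 + 1 ≤ ((r + 1 : ℕ) : ℝ)) (hV : ((Y : ℝ) + 1) ^ (30 * r) ≤ Real.exp Y)
    (B : ∀ l : Nat.Primes, Finset (ZMod (l : ℕ))) (hB : ∀ l ∈ win Y Z, (B l).card * (l : ℕ) ≤ 50 * Z) :
    (T : ℝ) * (1 / Real.exp Y) - 2 * Real.exp Y ≤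
      (((Icc 1 T).filter (fun t : ℕ => ∀ l ∈ win Y Z, (t : ZMod ((l : Nat.Primes) : ℕ)) ∉ B l)).card : ℝ) := by
  refine le_trans ?_ (sieve1d Y Z r T E0 hY hYZ hE0' hr hrE B hB)
  have h1 := V_main3 Y r E0 hY hr.pos hrE
  have h2 := V_err Y Z r 1 1 2 (by norm_num) (by norm_num) hY hYZ
  have hZr : (1 : ℝ) ≤ Z := by exact_mod_cast hZ
  have h3 : (((r + 1) * (Z + 1) ^ r : ℕ) : ℝ) * ((50 * (Z : ℝ) + 1) ^ r * 2) ≤
      (((r + 1) * (Z + 1) ^ r : ℕ) : ℝ) * ((50 * (Z : ℝ) ^ 2 + 1) ^ r * (2 * ((1 * Z ^ r : ℕ) : ℝ) ^ 11 * 1)) := by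
    have e1 : 50 * (Z : ℝ) + 1 ≤ 50 * (Z : ℝ) ^ 2 + 1 := by nlinarith
    have e2 : (1 : ℝ) ≤ ((1 * Z ^ r : ℕ) : ℝ) ^ 11 := by
      apply one_le_pow₀
      push_cast
      rw [one_mul]
      exact one_le_pow₀ hZr
    have e3 : (50 * (Z : ℝ) + 1) ^ r ≤ (50 * (Z : ℝ) ^ 2 + 1) ^ r := by gcongr
    have e4 : (2 : ℝ) ≤ 2 * ((1 * Z ^ r : ℕ) : ℝ) ^ 11 * 1 := by linarith
    gcongr
  have h4 : ((Y : ℝ) + 1) ^ (30 * r) * (2 * ((1 : ℕ) : ℝ) ^ 11 * 1) ≤ 2 * Real.exp Y := by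
    push_cast
    linarith
  have h5 : 1 / Real.exp Y ≤ 1 / 2 * Real.exp (-(2 * E0)) := by
    refine le_trans ?_ h1
    apply one_div_le_one_div_of_le (by positivity) hV
  have h6 : (T : ℝ) * (1 / Real.exp Y) ≤ (T : ℝ) * (1 / 2 * Real.exp (-(2 * E0))) := by gcongr
  linarith

end Pool.Agent.R154.FW
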